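import Pool.Agent.P.MP_7b8a73_gt.HMain

open Pool.Agent.P.MP_7b8a73_gt

namespace Pool.Agent.Results.MP_7b8a73_gt.WeakDeltaThetaMetrizable

/-- Every Hausdorff, locally compact, locally connected, locally metrizable, hereditarily normal,
weakly delta-theta-refinable space is metrizable. -/
theorem result (X : Type*) [TopologicalSpace X] [T2Space X] [LocallyCompactSpace X]
    [LocallyConnectedSpace X]
    (hm : ∀ x : X, ∃ s ∈ nhds x, TopologicalSpace.MetrizableSpace s)
    (hn : ∀ s : Set X, NormalSpace s)
    (h : WeaklyDeltaThetaRefinable X) : TopologicalSpace.MetrizableSpace X :=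
  haveI : CompletelyNormalSpace X := CompletelyNormalSpace.of_forall_normalSpace hn
  metrizable_of_weaklyDeltaTheta hm h

end Pool.Agent.Results.MP_7b8a73_gt.WeakDeltaThetaMetrizable
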