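import Pool.Agent.P.MP_7b8a73_gt.HMain

open Pool.Agent.P.MP_7b8a73_gt

namespace Pool.Agent.Results.MP_7b8a73_gt.WeakThetaParacompact

/-- Every Hausdorff, locally compact, locally connected, hereditarily normal, weakly
theta-refinable space is paracompact. -/
theorem result (X : Type*) [TopologicalSpace X] [T2Space X] [LocallyCompactSpace X]
    [LocallyConnectedSpace X] (hn : ∀ s : Set X, NormalSpace s)
    (h : WeaklyThetaRefinable X) : ParacompactSpace X :=
  haveI : CompletelyNormalSpace X := CompletelyNormalSpace.of_forall_normalSpace hn
  paracompact_of_weaklyTheta h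

end Pool.Agent.Results.MP_7b8a73_gt.WeakThetaParacompact
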